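import Mathlib

/-!
# Continuous functions with compact support on a product: approximation by sums of products
-/

set_option autoImplicit false

open Finset Topology

namespace Pool.Agent.Helper183_CM

variable {n : ℕ} {Y : Fin n → Type*} [∀ j, TopologicalSpace (Y j)]

/-- the products of continuous functions of one coordinate -/
def Prods (Y : Fin n → Type*) [∀ j, TopologicalSpace (Y j)] : Set ((∀ j, Y j) → ℝ) :=
  {F | ∃ g : ∀ j, Y j → ℝ, (∀ j, Continuous (g j)) ∧ F = fun z => ∏ j, g j (z j)}

/-- the products of continuous functions with compact support of one coordinate -/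
def CProds (Y : Fin n → Type*) [∀ j, TopologicalSpace (Y j)] : Set ((∀ j, Y j) → ℝ) :=
  {F | ∃ g : ∀ j, Y j → ℝ, (∀ j, Continuous (g j) ∧ HasCompactSupport (g j)) ∧
    F = fun z => ∏ j, g j (z j)}

theorem span_mul {F G : (∀ j, Y j) → ℝ} (hF : F ∈ Submodule.span ℝ (Prods Y))
    (hG : G ∈ Submodule.span ℝ (Prods Y)) : F * G ∈ Submodule.span ℝ (Prods Y) := by
  induction hF using Submodule.span_induction with
  | mem F hF =>
    induction hG using Submodule.span_induction with
    | mem G hG =>
      obtain ⟨f, hf, rfl⟩ := hF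
      obtain ⟨g, hg, rfl⟩ := hG
      refine Submodule.subset_span ⟨fun j y => f j y * g j y, fun j => (hf j).mul (hg j), ?_⟩
      funext z
      simp [Finset.prod_mul_distrib]
    | zero => rw [mul_zero]; exact Submodule.zero_mem _
    | add G G' _ _ h h' => rw [mul_add]; exact Submodule.add_mem _ h h'
    | smul r G _ h => rw [mul_smul_comm]; exact Submodule.smul_mem _ r h
  | zero => rw [zero_mul]; exact Submodule.zero_mem _
  | add F F' _ _ h h' => rw [add_mul]; exact Submodule.add_mem _ h h'
  | smul r F _ h => rw [smul_mul_assoc]; exact Submodule.smul_mem _ r h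

theorem span_cut {F : (∀ j, Y j) → ℝ} (hF : F ∈ Submodule.span ℝ (Prods Y))
    (χ : ∀ j, C(Y j, ℝ)) (hχ : ∀ j, HasCompactSupport (χ j)) :
    (F * fun z => ∏ j, χ j (z j)) ∈ Submodule.span ℝ (CProds Y) := by
  induction hF using Submodule.span_induction with
  | mem F hF =>
    obtain ⟨f, hf, rfl⟩ := hF
    refine Submodule.subset_span ⟨fun j y => f j y * χ j y, fun j =>
      ⟨(hf j).mul (χ j).continuous, (hχ j).mul_left⟩, ?_⟩
    funext z
    simp [Finset.prod_mul_distrib]
  | zero => rw [zero_mul]; exact Submodule.zero_mem _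
  | add F F' _ _ h h' => rw [add_mul]; exact Submodule.add_mem _ h h'
  | smul r F _ h => rw [smul_mul_assoc]; exact Submodule.smul_mem _ r h

/-- the algebra generated by the continuous functions of one coordinate -/
noncomputable def coordAlg (Y : Fin n → Type*) [∀ j, TopologicalSpace (Y j)] :
    Subalgebra ℝ C(∀ j, Y j, ℝ) :=
  Algebra.adjoin ℝ {F | ∃ (j : Fin n) (g : C(Y j, ℝ)), F = ⟨fun z => g (z j),
    g.continuous.comp (continuous_apply j)⟩}

theorem coordAlg_span {F : C(∀ j, Y j, ℝ)} (hF : F ∈ coordAlg Y) :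
    (F : (∀ j, Y j) → ℝ) ∈ Submodule.span ℝ (Prods Y) := by
  unfold coordAlg at hF
  induction hF using Algebra.adjoin_induction with
  | mem F hF =>
    obtain ⟨j, g, rfl⟩ := hF
    classical
    refine Submodule.subset_span ⟨fun k => if h : k = j then fun y => g (h ▸ y) else fun _ => 1,
      fun k => ?_, ?_⟩
    · by_cases h : k = j
      · subst h
        simp only [dif_pos]
        exact g.continuous
      · simp only [dif_neg h]
        exact continuous_const
    · funext z
      rw [Finset.prod_eq_single j]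
      · simp
      · intro k _ hk
        simp [dif_neg hk]
      · intro h
        exact absurd (Finset.mem_univ j) h
  | algebraMap r =>
    have h1 : (fun _ => 1 : (∀ j, Y j) → ℝ) ∈ Submodule.span ℝ (Prods Y) :=
      Submodule.subset_span ⟨fun _ _ => 1, fun _ => continuous_const, by funext z; simp⟩
    have h2 := Submodule.smul_mem _ r h1
    convert h2 using 1
    funext z
    simp
  | add F G _ _ hF hG => exact Submodule.add_mem _ hF hG
  | mul F G _ _ hF hG => exact span_mul hF hG

theorem coordAlg_sep [∀ j, T2Space (Y j)] [∀ j, LocallyCompactSpace (Y j)] :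
    (coordAlg Y).SeparatesPoints := by
  intro x y hxy
  obtain ⟨j, hj⟩ := Function.ne_iff.mp hxy
  obtain ⟨g, hg1, hg0, -, -⟩ := exists_continuous_one_zero_of_isCompact (X := Y j)
    (s := {x j}) (t := {y j}) isCompact_singleton isClosed_singleton
    (Set.disjoint_singleton.mpr hj)
  refine ⟨_, ⟨⟨fun z => g (z j), g.continuous.comp (continuous_apply j)⟩,
    Algebra.subset_adjoin ⟨j, g, rfl⟩, rfl⟩, ?_⟩
  have h1 : g (x j) = 1 := hg1 rfl
  have h0 : g (y j) = 0 := hg0 rfl
  show g (x j) ≠ g (y j)
  rw [h1, h0]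
  exact one_ne_zero

/-- a continuous function with compact support on a product is uniformly close to a linear
combination of products of continuous functions with compact support -/
theorem exists_near [∀ j, T2Space (Y j)] [∀ j, LocallyCompactSpace (Y j)] {f : (∀ j, Y j) → ℝ}
    (hf : Continuous f) (hc : HasCompactSupport f) {ε : ℝ} (hε : 0 < ε) :
    ∃ F ∈ Submodule.span ℝ (CProds Y), ∀ z, |f z - F z| ≤ ε := by
  have hK : ∀ j, IsCompact ((fun z : ∀ j, Y j => z j) '' tsupport f) := fun j =>
    hc.isCompact.image (continuous_apply j)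
  have hχ : ∀ j, ∃ χ : C(Y j, ℝ), Set.EqOn χ 1 ((fun z : ∀ j, Y j => z j) '' tsupport f) ∧
      HasCompactSupport χ ∧ ∀ y, χ y ∈ Set.Icc (0 : ℝ) 1 := by
    intro j
    obtain ⟨χ, h1, -, h3, h4⟩ := exists_continuous_one_zero_of_isCompact (hK j) isClosed_empty
      (Set.disjoint_empty _)
    exact ⟨χ, h1, h3, h4⟩
  choose χ h1 h2 h3 using hχ
  have hZ : IsCompact (Set.pi Set.univ fun j => tsupport (χ j)) := isCompact_univ_pi fun j => h2 j
  obtain ⟨g, hg, hgf⟩ :=
    ContinuousMap.exists_mem_subalgebra_near_continuous_of_isCompact_of_separatesPoints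
      (coordAlg_sep (Y := Y)) ⟨f, hf⟩ hZ hε
  refine ⟨(g : (∀ j, Y j) → ℝ) * fun z => ∏ j, χ j (z j), span_cut (coordAlg_span hg) χ h2,
    fun z => ?_⟩
  have hprod : 0 ≤ ∏ j, χ j (z j) ∧ ∏ j, χ j (z j) ≤ 1 :=
    ⟨Finset.prod_nonneg fun j _ => (h3 j _).1,
      Finset.prod_le_one (fun j _ => (h3 j _).1) fun j _ => (h3 j _).2⟩
  have hfz : f z = f z * ∏ j, χ j (z j) := by
    by_cases h : f z = 0
    · rw [h, zero_mul]
    · have h5 : ∀ j, χ j (z j) = 1 := fun j => h1 j ⟨z, subset_tsupport f h, rfl⟩
      rw [Finset.prod_congr rfl fun j _ => h5 j]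
      simp
  show |f z - g z * ∏ j, χ j (z j)| ≤ ε
  by_cases hz : z ∈ Set.pi Set.univ fun j => tsupport (χ j)
  · have h6 := hgf z hz
    rw [hfz, ← sub_mul, abs_mul, abs_of_nonneg hprod.1]
    have h7 : |f z - g z| < ε := by
      rw [abs_sub_comm]
      simpa using h6
    calc |f z - g z| * ∏ j, χ j (z j) ≤ ε * 1 :=
          mul_le_mul h7.le hprod.2 hprod.1 hε.le
      _ = ε := mul_one ε
  · have h8 : ∃ j, χ j (z j) = 0 := by
      by_contra hne
      push Not at hne
      exact hz fun j _ => subset_tsupport _ (hne j)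
    obtain ⟨j, hj⟩ := h8
    have h9 : ∏ j, χ j (z j) = 0 := Finset.prod_eq_zero (Finset.mem_univ j) hj
    rw [hfz, h9]
    simp [hε.le]

end Pool.Agent.Helper183_CM
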