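import Mathlib

/-!
# Independence of dihedral extensions over different quadratic fields
-/

set_option autoImplicit false

open Finset

namespace Pool.Agent.Helper183_CM

variable {G : Type*} [Group G]

/-- `U` is the Galois group of a quadratic field `K`, `N` the Galois group of a finite extension
`R` of `K` which is abelian over `K` and on whose group the other elements act by inversion. -/
structure Dihedral (U N : Subgroup G) : Prop where
  index : U.index = 2
  le : N ≤ U
  normal : N.Normal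
  comm : ∀ a ∈ U, ∀ b ∈ U, a * b * a⁻¹ * b⁻¹ ∈ N
  inv : ∀ s, s ∉ U → ∀ a ∈ U, s * a * s⁻¹ * a ∈ N
  finite : N.relIndex U ≠ 0

/-- the number of elements `c` of `U / N` with `c² = 1` -/
noncomputable def twoTors (U N : Subgroup G) : ℕ :=
  Nat.card {c : G ⧸ N // ∃ a ∈ U, a ^ 2 ∈ N ∧ (a : G ⧸ N) = c}

/-- the elements fixing all the quadratic fields, and the extensions `R` of all the fields but the
`j`-th one -/
def Qs {n : ℕ} (U N : Fin n → Subgroup G) (j : Fin n) : Subgroup G :=
  (⨅ k, U k) ⊓ ⨅ k, if k = j then ⊤ else N k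

theorem mem_Qs {n : ℕ} {U N : Fin n → Subgroup G} {j : Fin n} {a : G} :
    a ∈ Qs U N j ↔ (∀ k, a ∈ U k) ∧ ∀ k, k ≠ j → a ∈ N k := by
  unfold Qs
  rw [Subgroup.mem_inf, Subgroup.mem_iInf, Subgroup.mem_iInf]
  refine and_congr_right fun _ => ⟨fun h k hk => ?_, fun h k => ?_⟩
  · have := h k
    rwa [if_neg hk] at this
  · split_ifs with hk
    · exact Subgroup.mem_top a
    · exact h k hk

variable {n : ℕ} {U N : Fin n → Subgroup G}

theorem exists_sep (h : ∀ j, Dihedral (U j) (N j)) (hd : Function.Injective U) {j k : Fin n}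
    (hjk : j ≠ k) : ∃ s, s ∈ U j ∧ s ∉ U k := by
  by_contra hne
  push Not at hne
  have hle : U j ≤ U k := fun s hs => hne s hs
  have h1 := Subgroup.relIndex_mul_index hle
  rw [(h j).index, (h k).index] at h1
  have h2 : (U j).relIndex (U k) = 1 := by omega
  rw [Subgroup.relIndex_eq_one] at h2
  exact hjk (hd (le_antisymm hle h2))

/-- for an element `a` fixing all the quadratic fields there is an element which acts as
`a ^ (2 ^ |s|)` on the `j`-th extension and trivially on the extensions of the fields in `s` -/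
theorem exists_kill (h : ∀ j, Dihedral (U j) (N j)) (hd : Function.Injective U) (j : Fin n) {a : G}
    (ha : ∀ k, a ∈ U k) (s : Finset (Fin n)) (hj : j ∉ s) :
    ∃ b : G, (∀ k, b ∈ U k) ∧ (∀ k ∈ s, b ∈ N k) ∧ b * (a ^ 2 ^ s.card)⁻¹ ∈ N j := by
  classical
  induction s using Finset.induction_on with
  | empty => exact ⟨a, ha, fun k hk => absurd hk (Finset.notMem_empty k), by simp [(N j).one_mem]⟩
  | insert k s hk ih =>
    rw [Finset.mem_insert, not_or] at hj
    obtain ⟨b, hb1, hb2, hb3⟩ := ih hj.2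
    obtain ⟨σ, hσj, hσk⟩ := exists_sep h hd hj.1
    have hnU : ∀ l, (U l).Normal := fun l => Subgroup.normal_of_index_eq_two (h l).index
    refine ⟨b * (σ * b * σ⁻¹), fun l => (U l).mul_mem (hb1 l) ((hnU l).conj_mem b (hb1 l) σ),
      fun l hl => ?_, ?_⟩
    · rcases Finset.mem_insert.mp hl with rfl | hl
      · have h1 := (h l).inv σ hσk b (hb1 l)
        have h2 := (h l).normal.conj_mem _ h1 b
        have e : b * (σ * b * σ⁻¹ * b) * b⁻¹ = b * (σ * b * σ⁻¹) := by group
        rwa [e] at h2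
      · exact (N l).mul_mem (hb2 l hl) ((h l).normal.conj_mem b (hb2 l hl) σ)
    · rw [Finset.card_insert_of_notMem hk]
      have := (h j).normal
      have h1 : ((b : G) : G ⧸ N j) = ((a ^ 2 ^ s.card : G) : G ⧸ N j) := by
        rw [← mul_inv_eq_one, ← QuotientGroup.mk_inv, ← QuotientGroup.mk_mul,
          QuotientGroup.eq_one_iff]
        exact hb3
      have h2 : ((σ * b * σ⁻¹ : G) : G ⧸ N j) = ((b : G) : G ⧸ N j) := by
        rw [← mul_inv_eq_one, ← QuotientGroup.mk_inv, ← QuotientGroup.mk_mul,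
          QuotientGroup.eq_one_iff]
        exact (h j).comm σ hσj b (hb1 j)
      rw [← QuotientGroup.eq_one_iff, QuotientGroup.mk_mul, QuotientGroup.mk_inv, mul_inv_eq_one,
        QuotientGroup.mk_mul, h2, h1, ← QuotientGroup.mk_mul, ← pow_two, ← pow_mul, ← pow_succ]

theorem exists_pow (h : ∀ j, Dihedral (U j) (N j)) (hd : Function.Injective U) (j : Fin n) {a : G}
    (ha : ∀ k, a ∈ U k) : ∃ b ∈ Qs U N j, b * (a ^ 2 ^ (n - 1))⁻¹ ∈ N j := by
  classical
  obtain ⟨b, h1, h2, h3⟩ := exists_kill h hd j ha (Finset.univ.erase j) (Finset.notMem_erase j _)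
  refine ⟨b, mem_Qs.mpr ⟨h1, fun k hk => h2 k (Finset.mem_erase.mpr ⟨hk, Finset.mem_univ k⟩)⟩, ?_⟩
  rwa [Finset.card_erase_of_mem (Finset.mem_univ j), Finset.card_univ, Fintype.card_fin] at h3

/-- the squares of a set of commuting elements -/
theorem card_le_image_sq {H : Type*} [Group H] [DecidableEq H] (A : Subgroup H)
    (hA : ∀ a ∈ A, ∀ b ∈ A, a * b = b * a) (hfin : Finite A) (S : Finset H) (hS : ∀ a ∈ S, a ∈ A) :
    S.card ≤ Nat.card {c : H // c ∈ A ∧ c ^ 2 = 1} * (S.image fun a => a ^ 2).card := by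
  refine Finset.card_le_mul_card_image S _ fun c hc => ?_
  obtain ⟨b0, hb0, rfl⟩ := Finset.mem_image.mp hc
  have hfin2 : Finite {c : H // c ∈ A ∧ c ^ 2 = 1} :=
    Finite.of_injective (fun c => (⟨c.1, c.2.1⟩ : A)) fun x y hxy => by
      simpa [Subtype.ext_iff] using hxy
  rw [← Nat.card_eq_finsetCard]
  refine Nat.card_le_card_of_injective
    (fun a => ⟨b0⁻¹ * a.1, ?_, ?_⟩) fun x y hxy => ?_
  · have h1 := (Finset.mem_filter.mp a.2).1
    exact A.mul_mem (A.inv_mem (hS _ hb0)) (hS _ h1)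
  · have h1 := Finset.mem_filter.mp a.2
    have h2 := hA _ (A.inv_mem (hS _ hb0)) _ (hS _ h1.1)
    have h3 : a.1 ^ 2 = b0 ^ 2 := h1.2
    rw [pow_two, mul_assoc, ← mul_assoc a.1, ← h2, mul_assoc, ← pow_two, h3, ← mul_assoc]
    group
  · simp only [Subtype.mk.injEq] at hxy
    exact Subtype.ext (mul_left_cancel hxy)

theorem card_le_image_pow {H : Type*} [Group H] [DecidableEq H] (A : Subgroup H)
    (hA : ∀ a ∈ A, ∀ b ∈ A, a * b = b * a) (hfin : Finite A) (S : Finset H) (hS : ∀ a ∈ S, a ∈ A)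
    (m : ℕ) :
    S.card ≤ Nat.card {c : H // c ∈ A ∧ c ^ 2 = 1} ^ m * (S.image fun a => a ^ 2 ^ m).card := by
  induction m with
  | zero => simp
  | succ m ih =>
    have h1 := card_le_image_sq A hA hfin (S.image fun a => a ^ 2 ^ m) (fun a ha => by
      obtain ⟨b, hb, rfl⟩ := Finset.mem_image.mp ha
      exact A.pow_mem (hS b hb) _)
    have e : (S.image fun a => a ^ 2 ^ m).image (fun a => a ^ 2) = S.image fun a => a ^ 2 ^ (m + 1) := by
      rw [Finset.image_image]
      refine Finset.image_congr fun a _ => ?_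
      simp only [Function.comp_apply, ← pow_mul, ← pow_succ]
    rw [e] at h1
    calc S.card ≤ _ := ih
      _ ≤ _ := Nat.mul_le_mul_left _ h1
      _ = _ := by ring

theorem iInf_relIndex (h : ∀ j, Dihedral (U j) (N j)) (L : Subgroup G) :
    (⨅ k, U k).relIndex L ≠ 0 ∧ (⨅ k, U k).relIndex L ≤ 2 ^ n := by
  have h1 : ∀ k, (U k).relIndex L ≠ 0 ∧ (U k).relIndex L ≤ 2 := by
    intro k
    have h2 : (U k).relIndex ⊤ ≠ 0 := by
      rw [Subgroup.relIndex_top_right, (h k).index]
      norm_num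
    have h3 : (U k).relIndex L ≤ (U k).relIndex ⊤ := Subgroup.relIndex_le_of_le_right le_top h2
    rw [Subgroup.relIndex_top_right, (h k).index] at h3
    refine ⟨fun h0 => ?_, h3⟩
    have := Subgroup.index_eq_zero_of_relIndex_eq_zero h0
    rw [(h k).index] at this
    omega
  refine ⟨Subgroup.relIndex_iInf_ne_zero fun k => (h1 k).1, (Subgroup.relIndex_iInf_le U).trans ?_⟩
  calc ∏ k, (U k).relIndex L ≤ ∏ _k : Fin n, 2 := Finset.prod_le_prod' fun k _ => (h1 k).2
    _ = 2 ^ n := by simp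

/-- the index of `N j` in the group of the elements which fix the quadratic fields and the other
extensions is large -/
theorem relIndex_Qs (h : ∀ j, Dihedral (U j) (N j)) (hd : Function.Injective U) (j : Fin n) :
    (N j).relIndex (U j) ≤
      2 ^ n * (twoTors (U j) (N j) ^ (n - 1) * (N j).relIndex (Qs U N j)) := by
  classical
  have := (h j).normal
  have hcard : ∀ K : Subgroup G, (N j).relIndex K = Nat.card (K.map (QuotientGroup.mk' (N j))) := by
    intro K
    have := Subgroup.relIndex_ker K (QuotientGroup.mk' (N j))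
    rwa [QuotientGroup.ker_mk'] at this
  set A := (U j).map (QuotientGroup.mk' (N j)) with hAdef
  have hAfin : Finite A := Nat.finite_of_card_ne_zero (by rw [← hcard]; exact (h j).finite)
  have hAcomm : ∀ a ∈ A, ∀ b ∈ A, a * b = b * a := by
    rintro _ ⟨a, ha, rfl⟩ _ ⟨b, hb, rfl⟩
    have h1 := (h j).comm a ha b hb
    rw [← QuotientGroup.eq_one_iff] at h1
    simp only [QuotientGroup.mk_mul, QuotientGroup.mk_inv] at h1
    simp only [QuotientGroup.mk'_apply]
    rw [mul_inv_eq_one, mul_inv_eq_iff_eq_mul] at h1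
    exact h1
  set D := ⨅ k, U k with hD
  have hDU : D ≤ U j := iInf_le U j
  have hDA : D.map (QuotientGroup.mk' (N j)) ≤ A := Subgroup.map_mono hDU
  have hDfin : Finite (D.map (QuotientGroup.mk' (N j))) :=
    Finite.of_injective (Subgroup.inclusion hDA) (Subgroup.inclusion_injective hDA)
  -- from `U` to `D`
  have s1 : (N j).relIndex (U j) ≤ 2 ^ n * (N j).relIndex D := by
    have h1 := Subgroup.relIndex_mul_relIndex (N j ⊓ D) D (U j) inf_le_right hDU
    rw [Subgroup.inf_relIndex_right] at h1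
    have h2 := iInf_relIndex h (U j)
    have h3 : (N j).relIndex D ≠ 0 := by
      rw [hcard]
      exact Nat.card_pos.ne'
    have h4 : (N j ⊓ D).relIndex (U j) ≠ 0 := by
      rw [← h1]
      exact mul_ne_zero h3 h2.1
    calc (N j).relIndex (U j) ≤ (N j ⊓ D).relIndex (U j) :=
          Subgroup.relIndex_le_of_le_left inf_le_left h4
      _ = (N j).relIndex D * D.relIndex (U j) := h1.symm
      _ ≤ (N j).relIndex D * 2 ^ n := Nat.mul_le_mul_left _ h2.2
      _ = _ := mul_comm _ _
  -- the powers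
  have hSfin : ((D.map (QuotientGroup.mk' (N j)) : Subgroup (G ⧸ N j)) : Set (G ⧸ N j)).Finite :=
    Set.toFinite _
  have s2 := card_le_image_pow A hAcomm hAfin hSfin.toFinset (fun a ha => hDA (by simpa using ha))
    (n - 1)
  have e1 : hSfin.toFinset.card = (N j).relIndex D := by
    rw [hcard, ← Set.ncard_eq_toFinset_card _ hSfin]
    rfl
  have e2 : Nat.card {c : G ⧸ N j // c ∈ A ∧ c ^ 2 = 1} = twoTors (U j) (N j) := by
    unfold twoTors
    refine Nat.card_congr (Equiv.subtypeEquivRight fun c => ?_)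
    constructor
    · rintro ⟨⟨a, ha, rfl⟩, hc⟩
      refine ⟨a, ha, ?_, rfl⟩
      rw [← QuotientGroup.eq_one_iff]
      exact hc
    · rintro ⟨a, ha, h2, rfl⟩
      refine ⟨⟨a, ha, rfl⟩, ?_⟩
      rw [← QuotientGroup.eq_one_iff] at h2
      exact h2
  have hQA : (Qs U N j).map (QuotientGroup.mk' (N j)) ≤ A :=
    Subgroup.map_mono (fun a ha => (mem_Qs.mp ha).1 j)
  have hQfin : Finite ((Qs U N j).map (QuotientGroup.mk' (N j))) :=
    Finite.of_injective (Subgroup.inclusion hQA) (Subgroup.inclusion_injective hQA)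
  have hQf : (((Qs U N j).map (QuotientGroup.mk' (N j)) : Subgroup (G ⧸ N j)) : Set (G ⧸ N j)).Finite :=
    Set.toFinite _
  have s3 : (hSfin.toFinset.image fun a => a ^ 2 ^ (n - 1)).card ≤ (N j).relIndex (Qs U N j) := by
    rw [hcard]
    have e3 : Nat.card ((Qs U N j).map (QuotientGroup.mk' (N j))) = hQf.toFinset.card := by
      rw [← Set.ncard_eq_toFinset_card _ hQf]
      rfl
    rw [e3]
    refine Finset.card_le_card fun c hc => ?_
    obtain ⟨d, hd', rfl⟩ := Finset.mem_image.mp hc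
    rw [Set.Finite.mem_toFinset] at hd' ⊢
    obtain ⟨a, ha, rfl⟩ := hd'
    obtain ⟨b, hb, hb'⟩ := exists_pow h hd j (a := a) (fun k => Subgroup.mem_iInf.mp ha k)
    refine ⟨b, hb, ?_⟩
    rw [← QuotientGroup.eq_one_iff, QuotientGroup.mk_mul, QuotientGroup.mk_inv,
      mul_inv_eq_one] at hb'
    exact hb'
  rw [e1, e2] at s2
  calc (N j).relIndex (U j) ≤ 2 ^ n * (N j).relIndex D := s1
    _ ≤ 2 ^ n * (twoTors (U j) (N j) ^ (n - 1) *
        (hSfin.toFinset.image fun a => a ^ 2 ^ (n - 1)).card) := Nat.mul_le_mul_left _ s2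
    _ ≤ _ := Nat.mul_le_mul_left _ (Nat.mul_le_mul_left _ s3)

end Pool.Agent.Helper183_CM
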