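import Mathlib

/-!
# Means over orbits in a product
-/

set_option autoImplicit false

open Finset MulAction

namespace Pool.Agent.Helper183_CM

/-- the mean of `f` over the (finite) orbit of `x` under the group `Γ` -/
noncomputable def orbMean (Γ : Type*) [Group Γ] {P : Type*} [MulAction Γ P] (x : P) (f : P → ℝ) : ℝ :=
  (∑ᶠ z ∈ orbit Γ x, f z) / (orbit Γ x).ncard

/-- the number of elements of the orbit of `x` under the subgroup `H` -/
noncomputable def orbSize {Γ P : Type*} [Group Γ] [MulAction Γ P] (H : Subgroup Γ) (x : P) : ℕ :=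
  (orbit H x).ncard

/-- the mean of `f` over the orbit of `x` under the subgroup `H` -/
noncomputable def subMean {Γ P : Type*} [Group Γ] [MulAction Γ P] (H : Subgroup Γ) (x : P)
    (f : P → ℝ) : ℝ :=
  orbMean H x f

theorem orbMean_eq {Γ : Type*} [Group Γ] {P : Type*} [MulAction Γ P] {x : P}
    (hx : (orbit Γ x).Finite) (f : P → ℝ) :
    orbMean Γ x f = (∑ z ∈ hx.toFinset, f z) / hx.toFinset.card := by
  unfold orbMean
  rw [finsum_mem_eq_finite_toFinset_sum _ hx, Set.ncard_eq_toFinset_card _ hx]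

theorem card_pos_orbit {Γ : Type*} [Group Γ] {P : Type*} [MulAction Γ P] {x : P}
    (hx : (orbit Γ x).Finite) : 0 < hx.toFinset.card :=
  Finset.card_pos.mpr ⟨x, hx.mem_toFinset.mpr (mem_orbit_self x)⟩

theorem orbMean_add {Γ : Type*} [Group Γ] {P : Type*} [MulAction Γ P] {x : P}
    (hx : (orbit Γ x).Finite) (f g : P → ℝ) :
    orbMean Γ x (fun z => f z + g z) = orbMean Γ x f + orbMean Γ x g := by
  rw [orbMean_eq hx, orbMean_eq hx, orbMean_eq hx, Finset.sum_add_distrib, add_div]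

theorem orbMean_smul {Γ : Type*} [Group Γ] {P : Type*} [MulAction Γ P] {x : P}
    (hx : (orbit Γ x).Finite) (r : ℝ) (f : P → ℝ) :
    orbMean Γ x (fun z => r * f z) = r * orbMean Γ x f := by
  rw [orbMean_eq hx, orbMean_eq hx, ← Finset.mul_sum, mul_div_assoc]

theorem orbMean_close {Γ : Type*} [Group Γ] {P : Type*} [MulAction Γ P] {x : P}
    (hx : (orbit Γ x).Finite) {f g : P → ℝ} {ε : ℝ} (h : ∀ z, |f z - g z| ≤ ε) :
    |orbMean Γ x f - orbMean Γ x g| ≤ ε := by
  have hpos : (0 : ℝ) < hx.toFinset.card := by exact_mod_cast card_pos_orbit hx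
  rw [orbMean_eq hx, orbMean_eq hx, ← sub_div, ← Finset.sum_sub_distrib, abs_div,
    abs_of_pos hpos, div_le_iff₀ hpos]
  calc |∑ z ∈ hx.toFinset, (f z - g z)| ≤ ∑ z ∈ hx.toFinset, |f z - g z| :=
        Finset.abs_sum_le_sum_abs _ _
    _ ≤ ∑ z ∈ hx.toFinset, ε := Finset.sum_le_sum fun z _ => h z
    _ = ε * hx.toFinset.card := by rw [Finset.sum_const, nsmul_eq_mul]; ring

variable {Γ : Type*} [Group Γ] {n : ℕ} {P : Fin n → Type*} [∀ j, MulAction Γ (P j)]

variable (Γ) in
/-- the elements which move only the conjugates of the `j`-th coordinate -/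
def only (x : ∀ j, P j) (j : Fin n) : Subgroup Γ where
  carrier := {σ | ∀ k, k ≠ j → ∀ z ∈ orbit Γ (x k), σ • z = z}
  one_mem' := fun k _ z _ => one_smul _ z
  mul_mem' := by
    intro a b ha hb k hk z hz
    rw [mul_smul, hb k hk z hz, ha k hk z hz]
  inv_mem' := by
    intro a ha k hk z hz
    rw [inv_smul_eq_iff, ha k hk z hz]

theorem mem_only {x : ∀ j, P j} {j : Fin n} {σ : Γ} :
    σ ∈ only Γ x j ↔ ∀ k, k ≠ j → ∀ z ∈ orbit Γ (x k), σ • z = z := Iff.rfl

theorem smul_mem_orb {Q : Type*} [MulAction Γ Q] {x z : Q} (σ : Γ) (hz : z ∈ orbit Γ x) :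
    σ • z ∈ orbit Γ x := by
  obtain ⟨τ, rfl⟩ := hz
  exact ⟨σ * τ, by simp [mul_smul]⟩

theorem exists_prod {x : ∀ j, P j} (τ : Fin n → Γ) (hτ : ∀ j, τ j ∈ only Γ x j) :
    ∃ σ : Γ, ∀ j, ∀ z ∈ orbit Γ (x j), σ • z = τ j • z := by
  classical
  have key : ∀ s : Finset (Fin n), ∃ σ : Γ, (∀ j ∈ s, ∀ z ∈ orbit Γ (x j), σ • z = τ j • z) ∧
      ∀ j ∉ s, ∀ z ∈ orbit Γ (x j), σ • z = z := by
    intro s
    induction s using Finset.induction_on with
    | empty => exact ⟨1, fun j hj => absurd hj (Finset.notMem_empty j), fun j _ z _ => one_smul _ z⟩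
    | insert k s hk ih =>
      obtain ⟨σ, h1, h2⟩ := ih
      refine ⟨τ k * σ, fun j hj z hz => ?_, fun j hj z hz => ?_⟩
      · rw [mul_smul]
        rcases Finset.mem_insert.mp hj with rfl | hj
        · rw [h2 j hk z hz]
        · have hjk : j ≠ k := fun h => hk (h ▸ hj)
          rw [hτ k j hjk _ (smul_mem_orb σ hz), h1 j hj z hz]
      · rw [mul_smul]
        rw [Finset.mem_insert, not_or] at hj
        rw [hτ k j hj.1 _ (smul_mem_orb σ hz), h2 j hj.2 z hz]
  obtain ⟨σ, h, -⟩ := key Finset.univ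
  exact ⟨σ, fun j => h j (Finset.mem_univ j)⟩

theorem orbit_finite {x : ∀ j, P j} (hfin : ∀ j, (orbit Γ (x j)).Finite) : (orbit Γ x).Finite := by
  refine Set.Finite.subset (Set.Finite.pi (t := fun j => orbit Γ (x j)) hfin) ?_
  rintro z ⟨σ, rfl⟩ j _
  exact ⟨σ, rfl⟩

theorem coord_mem {x y : ∀ j, P j} (hy : y ∈ orbit Γ x) (j : Fin n) : y j ∈ orbit Γ (x j) := by
  obtain ⟨σ, rfl⟩ := hy
  exact ⟨σ, rfl⟩

theorem orbit_sub_orbit {Q : Type*} [MulAction Γ Q] (H : Subgroup Γ) {x y : Q} (hy : y ∈ orbit Γ x) :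
    orbit H y ⊆ orbit Γ x := by
  rintro z ⟨σ, rfl⟩
  exact smul_mem_orb (σ : Γ) hy

/-- the mean over an orbit in the product, from the means over the orbits of the groups which move
one coordinate only -/
theorem mean_product {x : ∀ j, P j} (hfin : ∀ j, (orbit Γ (x j)).Finite) (g : ∀ j, P j → ℝ)
    (I : Fin n → ℝ) {ε η : ℝ}
    (hη : ∀ a : Fin n → ℝ, (∀ j, |a j - I j| ≤ η) → |∏ j, a j - ∏ j, I j| ≤ ε)
    (hclose : ∀ j, ∀ y ∈ orbit Γ (x j), |orbMean (only Γ x j) y (g j) - I j| ≤ η) :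
    |orbMean Γ x (fun z => ∏ j, g j (z j)) - ∏ j, I j| ≤ ε := by
  classical
  have hO := orbit_finite hfin
  have hpos : (0 : ℝ) < hO.toFinset.card := by exact_mod_cast card_pos_orbit hO
  have hsub : ∀ j, ∀ y ∈ orbit Γ (x j), (orbit (only Γ x j) y).Finite := fun j y hy =>
    (hfin j).subset (orbit_sub_orbit _ hy)
  -- the class of `y`
  have hcl : ∀ y ∈ hO.toFinset,
      |∑ z ∈ hO.toFinset with (fun j => orbit (only Γ x j) (z j)) = (fun j => orbit (only Γ x j) (y j)),
        ((∏ j, g j (z j)) - ∏ j, I j)| ≤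
      ∑ z ∈ hO.toFinset with (fun j => orbit (only Γ x j) (z j)) = (fun j => orbit (only Γ x j) (y j)), ε := by
    intro y hy
    rw [Set.Finite.mem_toFinset] at hy
    have hs : ∀ j, (orbit (only Γ x j) (y j)).Finite := fun j => hsub j _ (coord_mem hy j)
    have e1 : (hO.toFinset.filter fun z => (fun j => orbit (only Γ x j) (z j)) =
        (fun j => orbit (only Γ x j) (y j))) = Fintype.piFinset fun j => (hs j).toFinset := by
      ext z
      rw [Finset.mem_filter, Fintype.mem_piFinset, Set.Finite.mem_toFinset]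
      constructor
      · rintro ⟨-, h⟩ j
        rw [Set.Finite.mem_toFinset, ← congrFun h j]
        exact mem_orbit_self _
      · intro h
        have h' : ∀ j, z j ∈ orbit (only Γ x j) (y j) := fun j => (Set.Finite.mem_toFinset _).mp (h j)
        choose τ hτ using h'
        obtain ⟨σ, hσ⟩ := exists_prod (x := x) (fun j => (τ j : Γ)) (fun j => (τ j).2)
        refine ⟨?_, ?_⟩
        · have : z = σ • y := by
            funext j
            rw [Pi.smul_apply, hσ j _ (coord_mem hy j)]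
            exact (hτ j).symm
          rw [this]
          exact smul_mem_orb σ hy
        · funext j
          exact orbit_eq_iff.mpr ⟨τ j, hτ j⟩
    rw [e1, Finset.sum_sub_distrib, ← Finset.prod_univ_sum, Finset.sum_const, Finset.sum_const,
      nsmul_eq_mul, nsmul_eq_mul, Fintype.card_piFinset]
    have hc : ∀ j, (0 : ℝ) < (hs j).toFinset.card := fun j => by
      exact_mod_cast card_pos_orbit (hs j)
    have e2 : ∀ j, ∑ w ∈ (hs j).toFinset, g j w =
        orbMean (only Γ x j) (y j) (g j) * (hs j).toFinset.card := fun j => by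
      rw [orbMean_eq (hs j), div_mul_cancel₀ _ (hc j).ne']
    rw [Finset.prod_congr rfl fun j _ => e2 j, Finset.prod_mul_distrib]
    push_cast
    have hP : (0 : ℝ) ≤ ∏ j, ((hs j).toFinset.card : ℝ) := Finset.prod_nonneg fun j _ => (hc j).le
    rw [show (∏ j, orbMean (only Γ x j) (y j) (g j)) * ∏ j, ((hs j).toFinset.card : ℝ) -
        (∏ j, ((hs j).toFinset.card : ℝ)) * ∏ j, I j =
        (∏ j, ((hs j).toFinset.card : ℝ)) * (∏ j, orbMean (only Γ x j) (y j) (g j) - ∏ j, I j) by ring,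
      abs_mul, abs_of_nonneg hP]
    exact mul_le_mul_of_nonneg_left (hη _ fun j => hclose j _ (coord_mem hy j)) hP
  have hsum : |∑ z ∈ hO.toFinset, ((∏ j, g j (z j)) - ∏ j, I j)| ≤ ε * hO.toFinset.card := by
    have hm : ∀ z ∈ hO.toFinset, (fun j => orbit (only Γ x j) (z j)) ∈
        hO.toFinset.image (fun z => fun j => orbit (only Γ x j) (z j)) := fun z hz =>
      Finset.mem_image_of_mem _ hz
    rw [← Finset.sum_fiberwise_of_maps_to hm]
    refine (Finset.abs_sum_le_sum_abs _ _).trans ?_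
    have e3 : ε * (hO.toFinset.card : ℝ) = ∑ z ∈ hO.toFinset, ε := by
      rw [Finset.sum_const, nsmul_eq_mul]; ring
    rw [e3, ← Finset.sum_fiberwise_of_maps_to hm]
    refine Finset.sum_le_sum fun b hb => ?_
    obtain ⟨y, hy, rfl⟩ := Finset.mem_image.mp hb
    exact hcl y hy
  have e4 : orbMean Γ x (fun z => ∏ j, g j (z j)) - ∏ j, I j =
      (∑ z ∈ hO.toFinset, ((∏ j, g j (z j)) - ∏ j, I j)) / hO.toFinset.card := by
    rw [orbMean_eq hO, Finset.sum_sub_distrib, Finset.sum_const, nsmul_eq_mul, sub_div,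
      mul_div_cancel_left₀ _ hpos.ne']
  rw [e4, abs_div, abs_of_pos hpos, div_le_iff₀ hpos]
  exact hsum

end Pool.Agent.Helper183_CM
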