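import Mathlib
import Pool.Agent.Helper183_CM.Grp
import Pool.Agent.Helper183_CM.Orbit
import Pool.Agent.Helper183_CM.Approx

/-!
# Orbits of points with different quadratic fields
-/

set_option autoImplicit false

open Finset MulAction MeasureTheory Filter Topology

namespace Pool.Agent.Helper183_CM

variable {G : Type*} [Group G] (GF : Subgroup G)

/-- the elements of the group of `F` which fix all the conjugates of `x` over `F` -/
def fixer {P : Type*} [MulAction GF P] (x : P) : Subgroup G :=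
  Subgroup.map GF.subtype
    { carrier := {σ | ∀ z ∈ orbit GF x, σ • z = z}
      one_mem' := fun z _ => one_smul _ z
      mul_mem' := by
        intro a b ha hb z hz
        rw [mul_smul, hb z hz, ha z hz]
      inv_mem' := by
        intro a ha z hz
        rw [inv_smul_eq_iff, ha z hz] }

theorem mem_fixer {P : Type*} [MulAction GF P] {x : P} {a : G} :
    a ∈ fixer GF x ↔ ∃ σ : GF, (∀ z ∈ orbit GF x, σ • z = z) ∧ (σ : G) = a := by
  unfold fixer
  rw [Subgroup.mem_map]
  rfl

/-- the degree over the field of `N` and `GF` of the field of definition of all conjugates of `x`: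
the index of the group fixing all the conjugates of `x` in `N ⊓ GF` -/
noncomputable def levelDeg {P : Type*} [MulAction GF P] (N : Subgroup G) (x : P) : ℕ :=
  (fixer GF x).relIndex (N ⊓ GF)

/-- The facts about a set `P` of points with an action of the Galois group `GF`. For a CM point `x`
of discriminant `- disc x`, `U x` is the Galois group of its quadratic field, `N x` the Galois group
of its ring class field. -/
structure GalFacts {P : Type*} [MulAction GF P] (disc : P → ℕ) (U N : P → Subgroup G) : Prop where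
  /-- conjugate points have the same discriminant -/
  disc_smul : ∀ (σ : GF) (x : P), disc (σ • x) = disc x
  /-- conjugate points have the same quadratic field -/
  U_smul : ∀ (σ : GF) (x : P), U (σ • x) = U x
  /-- conjugate points have the same ring class field -/
  N_smul : ∀ (σ : GF) (x : P), N (σ • x) = N x
  /-- the Galois group of the ring class field -/
  dihedral : ∀ x, Dihedral (U x) (N x)
  /-- the points are algebraic -/
  finite : ∀ x : P, (orbit GF x).Finite
  /-- finitely many points have bounded discriminant -/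
  few : ∀ B, {x | disc x ≤ B}.Finite
  /-- the field of definition of `x` and the quadratic field together contain the ring class field -/
  moduli : ∀ x, ∀ σ : GF, (σ : G) ∈ U x → σ • x = x → (σ : G) ∈ N x
  /-- over the ring class field the conjugates of `x` are defined over an extension of bounded degree -/
  level : ∃ c : ℕ, ∀ x, levelDeg GF (N x) x ≠ 0 ∧ levelDeg GF (N x) x ≤ c
  /-- Siegel's lower bound for the degree of the ring class field -/
  siegel : ∀ ε : ℝ, 0 < ε → ∃ C : ℝ, 0 < C ∧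
    ∀ x, (disc x : ℝ) ^ (1 / 2 - ε) ≤ C * (N x).relIndex (U x)
  /-- genus theory -/
  genus : ∀ ε : ℝ, 0 < ε → ∃ C : ℝ, 0 < C ∧ ∀ x, (twoTors (U x) (N x) : ℝ) ≤ C * (disc x : ℝ) ^ ε

/-- the points `x i` are equidistributed for `m` in the following strong sense: the orbits of the
conjugates of `x i` under the subgroups `H` of `Γ` are, if they have at least
`disc (x i) ^ (1 / 2 - δ)` elements -/
def SparseAlong (Γ : Type*) [Group Γ] {Y P : Type*} [TopologicalSpace Y] [MeasurableSpace Y]
    (m : Measure Y) [MulAction Γ P] (pt : P → Y) (disc : P → ℕ) (x : ℕ → P) : Prop :=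
  ∃ δ : ℝ, 0 < δ ∧ ∀ f : Y → ℝ, Continuous f → HasCompactSupport f → ∀ ε : ℝ, 0 < ε →
    ∀ᶠ i in atTop, ∀ y ∈ orbit Γ (x i), ∀ H : Subgroup Γ,
      (disc (x i) : ℝ) ^ (1 / 2 - δ) ≤ orbSize H y →
        |subMean H y (fun z => f (pt z)) - ∫ t, f t ∂m| ≤ ε

/-- the same for all points of large discriminant -/
def SparseCM (Γ : Type*) [Group Γ] {Y P : Type*} [TopologicalSpace Y] [MeasurableSpace Y]
    (m : Measure Y) [MulAction Γ P] (pt : P → Y) (disc : P → ℕ) : Prop :=
  ∃ δ : ℝ, 0 < δ ∧ ∀ f : Y → ℝ, Continuous f → HasCompactSupport f → ∀ ε : ℝ, 0 < ε →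
    ∃ D : ℕ, ∀ x, D ≤ disc x → ∀ H : Subgroup Γ, (disc x : ℝ) ^ (1 / 2 - δ) ≤ orbSize H x →
      |subMean H x (fun z => f (pt z)) - ∫ t, f t ∂m| ≤ ε

variable {GF}

/-- the size of an orbit, from below -/
theorem relIndex_le_orbit {P : Type*} [MulAction GF P] {y : P} {U N : Subgroup G} (hN : N.Normal)
    (hmod : ∀ σ : GF, (σ : G) ∈ U → σ • y = y → (σ : G) ∈ N) (H : Subgroup GF) (K : Subgroup G)
    (hK : ∀ a ∈ K, a ∈ U ∧ ∃ σ ∈ H, (σ : G) = a) (hfin : (orbit H y).Finite) :
    N.relIndex K ≤ (orbit H y).ncard := by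
  have h1 : N.relIndex K = Nat.card (K.map (QuotientGroup.mk' N)) := by
    have := Subgroup.relIndex_ker K (QuotientGroup.mk' N)
    rwa [QuotientGroup.ker_mk'] at this
  rw [h1]
  have hfin' : Finite (orbit H y) := hfin
  have h2 : ∀ c : K.map (QuotientGroup.mk' N), ∃ σ : GF, σ ∈ H ∧ (σ : G) ∈ U ∧
      (((σ : G) : G ⧸ N)) = c.1 := by
    rintro ⟨_, a, ha, rfl⟩
    obtain ⟨hU, σ, hσ, rfl⟩ := hK a ha
    exact ⟨σ, hσ, hU, rfl⟩
  choose s hs1 hs2 hs3 using h2
  rw [← Nat.card_coe_set_eq]
  refine Nat.card_le_card_of_injective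
    (fun c => (⟨s c • y, ⟨⟨s c, hs1 c⟩, rfl⟩⟩ : orbit H y)) fun c d hcd => ?_
  have h3 : s c • y = s d • y := congrArg Subtype.val hcd
  have h4 : ((s d)⁻¹ * s c) • y = y := by
    rw [mul_smul, h3, inv_smul_smul]
  have h5 := hmod _ (by
    push_cast
    exact U.mul_mem (U.inv_mem (hs2 d)) (hs2 c)) h4
  push_cast at h5
  have h6 : ((s d : G) : G ⧸ N) = ((s c : G) : G ⧸ N) := QuotientGroup.eq.mpr h5
  exact Subtype.ext (by rw [← hs3 c, ← hs3 d, h6])

variable {n : ℕ} {P : Fin n → Type*} [∀ j, MulAction GF (P j)]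

theorem orbit_large (hGF : GF.index ≠ 0) {x : ∀ j, P j} {U N : Fin n → Subgroup G}
    (hdih : ∀ j, Dihedral (U j) (N j)) (hinj : Function.Injective U) {c : Fin n → ℕ}
    (hc : ∀ k, 1 ≤ c k)
    (hlev : ∀ k, (fixer GF (x k)).relIndex (N k ⊓ GF) ≠ 0 ∧
      (fixer GF (x k)).relIndex (N k ⊓ GF) ≤ c k)
    (j : Fin n) {y : P j} (hy : (orbit (only GF x j) y).Finite)
    (hmod : ∀ σ : GF, (σ : G) ∈ U j → σ • y = y → (σ : G) ∈ N j) :
    (N j).relIndex (U j) ≤ 2 ^ n * (twoTors (U j) (N j) ^ (n - 1) *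
      ((GF.index * ∏ k, GF.index * c k) * (orbit (only GF x j) y).ncard)) := by
  classical
  set Q := Qs U N j with hQ
  set S : Subgroup G := GF ⊓ ⨅ k, if k = j then ⊤ else fixer GF (x k) with hS
  -- the index of `S`
  have hGFrel : ∀ L : Subgroup G, GF.relIndex L ≠ 0 ∧ GF.relIndex L ≤ GF.index := by
    intro L
    have h1 : GF.relIndex ⊤ ≠ 0 := by rwa [Subgroup.relIndex_top_right]
    have h2 : GF.relIndex L ≤ GF.relIndex ⊤ := Subgroup.relIndex_le_of_le_right le_top h1
    rw [Subgroup.relIndex_top_right] at h2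
    exact ⟨fun h0 => hGF (Subgroup.index_eq_zero_of_relIndex_eq_zero h0), h2⟩
  have hpos : 1 ≤ GF.index := Nat.one_le_iff_ne_zero.mpr hGF
  have hk : ∀ k, (if k = j then (⊤ : Subgroup G) else fixer GF (x k)).relIndex Q ≠ 0 ∧
      (if k = j then (⊤ : Subgroup G) else fixer GF (x k)).relIndex Q ≤ GF.index * c k := by
    intro k
    split_ifs with hkj
    · have : (⊤ : Subgroup G).relIndex Q = 1 := Subgroup.relIndex_top_left Q
      rw [this]
      exact ⟨one_ne_zero, Nat.mul_pos hpos (hc k)⟩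
    · have hle : fixer GF (x k) ≤ GF := by
        intro a ha
        obtain ⟨σ, -, rfl⟩ := (mem_fixer GF).mp ha
        exact σ.2
      have h1 := Subgroup.relIndex_inf_mul_relIndex (fixer GF (x k)) GF (N k)
      rw [inf_comm GF, inf_eq_left.mpr hle] at h1
      have h2 : (fixer GF (x k)).relIndex (N k) ≠ 0 := by
        rw [← h1]
        exact mul_ne_zero (hlev k).1 (hGFrel _).1
      have hQN : Q ≤ N k := fun a ha => (mem_Qs.mp ha).2 k hkj
      have h3 := Subgroup.relIndex_le_of_le_right hQN h2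
      refine ⟨fun h0 => h2 ?_, h3.trans ?_⟩
      · exfalso
        -- the relative index in a smaller group is also finite
        have h4 : Finite ((N k) ⧸ ((fixer GF (x k)).subgroupOf (N k))) :=
          Nat.finite_of_card_ne_zero h2
        have h5 : Finite (Q ⧸ ((fixer GF (x k)).subgroupOf Q)) :=
          Finite.of_injective _ (Subgroup.quotientSubgroupOfEmbeddingOfLE (fixer GF (x k)) hQN).injective
        exact Nat.card_pos.ne' h0
      · rw [← h1, mul_comm]
        exact Nat.mul_le_mul (hGFrel _).2 (hlev k).2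
  have hSrel : S.relIndex Q ≠ 0 ∧ S.relIndex Q ≤ GF.index * ∏ k, GF.index * c k := by
    refine ⟨Subgroup.relIndex_inf_ne_zero (hGFrel Q).1
      (Subgroup.relIndex_iInf_ne_zero fun k => (hk k).1), ?_⟩
    refine Subgroup.relIndex_inf_le.trans (Nat.mul_le_mul (hGFrel Q).2 ?_)
    exact (Subgroup.relIndex_iInf_le _).trans (Finset.prod_le_prod' fun k _ => (hk k).2)
  -- the group `Q ⊓ S`
  have hK : ∀ a ∈ Q ⊓ S, a ∈ U j ∧ ∃ σ ∈ only GF x j, (σ : G) = a := by
    intro a ha
    rw [Subgroup.mem_inf] at ha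
    refine ⟨(mem_Qs.mp ha.1).1 j, ?_⟩
    have h1 := Subgroup.mem_inf.mp ha.2
    refine ⟨⟨a, h1.1⟩, mem_only.mpr fun k hkj z hz => ?_, rfl⟩
    have h2 := Subgroup.mem_iInf.mp h1.2 k
    rw [if_neg hkj] at h2
    obtain ⟨σ, hσ, hσa⟩ := (mem_fixer GF).mp h2
    have h3 : (⟨a, h1.1⟩ : GF) = σ := Subtype.ext hσa.symm
    rw [h3]
    exact hσ z hz
  have h1 := relIndex_le_orbit (hdih j).normal hmod (only GF x j) (Q ⊓ S) hK hy
  have h2 : (N j).relIndex Q ≤ (GF.index * ∏ k, GF.index * c k) * (N j).relIndex (Q ⊓ S) := by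
    have e1 := Subgroup.relIndex_mul_relIndex (N j ⊓ (Q ⊓ S)) (Q ⊓ S) Q inf_le_right inf_le_left
    rw [Subgroup.inf_relIndex_right] at e1
    have e2 : (Q ⊓ S).relIndex Q = S.relIndex Q := by
      rw [inf_comm, Subgroup.inf_relIndex_right]
    rw [e2] at e1
    by_cases h0 : (N j ⊓ (Q ⊓ S)).relIndex Q = 0
    · have h3 := (mul_eq_zero.mp (e1.trans h0)).resolve_right hSrel.1
      exfalso
      have h4 : Finite ((U j) ⧸ ((N j).subgroupOf (U j))) :=
        Nat.finite_of_card_ne_zero (hdih j).finite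
      have hle : Q ⊓ S ≤ U j := fun a ha => (hK a ha).1
      have h5 : Finite ((Q ⊓ S : Subgroup G) ⧸ ((N j).subgroupOf (Q ⊓ S))) :=
        Finite.of_injective _ (Subgroup.quotientSubgroupOfEmbeddingOfLE (N j) hle).injective
      exact Nat.card_pos.ne' h3
    · calc (N j).relIndex Q ≤ (N j ⊓ (Q ⊓ S)).relIndex Q :=
            Subgroup.relIndex_le_of_le_left inf_le_left h0
        _ = (N j).relIndex (Q ⊓ S) * S.relIndex Q := e1.symm
        _ ≤ (N j).relIndex (Q ⊓ S) * (GF.index * ∏ k, GF.index * c k) :=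
            Nat.mul_le_mul_left _ hSrel.2
        _ = _ := mul_comm _ _
  calc (N j).relIndex (U j) ≤ 2 ^ n * (twoTors (U j) (N j) ^ (n - 1) * (N j).relIndex Q) :=
        relIndex_Qs hdih hinj j
    _ ≤ _ := Nat.mul_le_mul_left _ (Nat.mul_le_mul_left _ (h2.trans (Nat.mul_le_mul_left _ h1)))

end Pool.Agent.Helper183_CM
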