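import Mathlib
import Pool.Agent.Helper183_CM.Main

/-!
# Equidistribution of the orbits of points with different quadratic fields
-/

set_option autoImplicit false

open Finset MulAction MeasureTheory Filter Topology

namespace Pool.Agent.Helper183_CM

variable {G : Type*} [Group G] {GF : Subgroup G} {n : ℕ}

/-- `disc → ∞` -/
theorem tendsto_disc {P : Type*} [MulAction GF P] {disc : P → ℕ} {U N : P → Subgroup G}
    (h : GalFacts GF disc U N) {x : ℕ → P} (hx : ∀ z : P, {i | x i = z}.Finite) :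
    Tendsto (fun i => disc (x i)) atTop atTop := by
  rw [tendsto_atTop]
  intro B
  have h1 : {i | disc (x i) ≤ B}.Finite := by
    have h2 : {i | disc (x i) ≤ B} ⊆ ⋃ z ∈ {z | disc z ≤ B}, {i | x i = z} := by
      intro i hi
      simp only [Set.mem_iUnion]
      exact ⟨x i, hi, rfl⟩
    exact (Set.Finite.biUnion (h.few B) fun z _ => hx z).subset h2
  have h3 := h1.compl_mem_cofinite
  rw [Nat.cofinite_eq_atTop] at h3
  filter_upwards [h3] with i hi
  have : ¬ disc (x i) ≤ B := hi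
  omega

/-- the real estimate -/
theorem rpow_estimate {δ C1 C2 : ℝ} {n : ℕ} (hn : 1 ≤ n) (hδ : 0 < δ) (h1 : 0 < C1) (h2 : 0 < C2)
    {E : ℕ} (hE : 1 ≤ E) : ∃ D0 : ℕ, ∀ D : ℕ, D0 ≤ D → ∀ hh t o : ℕ,
      (D : ℝ) ^ (1 / 2 - δ / 4) ≤ C1 * hh → (t : ℝ) ≤ C2 * (D : ℝ) ^ (δ / (4 * n)) →
      hh ≤ 2 ^ n * (t ^ (n - 1) * (E * o)) → (D : ℝ) ^ (1 / 2 - δ) ≤ o := by
  set C' : ℝ := C1 * 2 ^ n * C2 ^ (n - 1) * E with hC'
  have hEr : (1 : ℝ) ≤ E := by exact_mod_cast hE
  have hC'pos : 0 < C' := by positivity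
  have ht : Tendsto (fun D : ℕ => (D : ℝ) ^ (δ / 2)) atTop atTop :=
    (tendsto_rpow_atTop (by positivity)).comp tendsto_natCast_atTop_atTop
  obtain ⟨D0, hD0⟩ := eventually_atTop.mp (ht.eventually_ge_atTop C')
  refine ⟨max D0 1, fun D hD hh t o e1 e2 e3 => ?_⟩
  have hD1 : (1 : ℝ) ≤ D := by exact_mod_cast (le_max_right D0 1).trans hD
  have hDpos : (0 : ℝ) < D := by linarith
  have hDC := hD0 D ((le_max_left D0 1).trans hD)
  have hnr : (1 : ℝ) ≤ n := by exact_mod_cast hn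
  -- the power of `t`
  have e4 : (t : ℝ) ^ (n - 1) ≤ C2 ^ (n - 1) * (D : ℝ) ^ (δ / 4) := by
    calc (t : ℝ) ^ (n - 1) ≤ (C2 * (D : ℝ) ^ (δ / (4 * n))) ^ (n - 1) :=
          pow_le_pow_left₀ (Nat.cast_nonneg t) e2 _
      _ = C2 ^ (n - 1) * ((D : ℝ) ^ (δ / (4 * n))) ^ (n - 1) := mul_pow _ _ _
      _ ≤ C2 ^ (n - 1) * (D : ℝ) ^ (δ / 4) := by
          refine mul_le_mul_of_nonneg_left ?_ (by positivity)
          rw [← Real.rpow_natCast, ← Real.rpow_mul hDpos.le]
          refine Real.rpow_le_rpow_of_exponent_le hD1 ?_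
          rw [div_mul_eq_mul_div, div_le_div_iff₀ (by positivity) (by norm_num)]
          have : ((n - 1 : ℕ) : ℝ) ≤ n := by exact_mod_cast Nat.sub_le n 1
          nlinarith
  have e5 : (hh : ℝ) ≤ 2 ^ n * ((t : ℝ) ^ (n - 1) * (E * o)) := by exact_mod_cast e3
  have ho : (0 : ℝ) ≤ o := Nat.cast_nonneg o
  have e6 : (D : ℝ) ^ (1 / 2 - δ / 4) ≤ C' * (D : ℝ) ^ (δ / 4) * o := by
    calc (D : ℝ) ^ (1 / 2 - δ / 4) ≤ C1 * hh := e1
      _ ≤ C1 * (2 ^ n * ((t : ℝ) ^ (n - 1) * (E * o))) := mul_le_mul_of_nonneg_left e5 h1.le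
      _ ≤ C1 * (2 ^ n * ((C2 ^ (n - 1) * (D : ℝ) ^ (δ / 4)) * (E * o))) := by
          refine mul_le_mul_of_nonneg_left (mul_le_mul_of_nonneg_left
            (mul_le_mul_of_nonneg_right e4 (by positivity)) (by positivity)) h1.le
      _ = C' * (D : ℝ) ^ (δ / 4) * o := by rw [hC']; ring
  have e7 : (D : ℝ) ^ (1 / 2 - δ / 4) = (D : ℝ) ^ (1 / 2 - δ / 2) * (D : ℝ) ^ (δ / 4) := by
    rw [← Real.rpow_add hDpos]; congr 1; ring
  have hq : 0 < (D : ℝ) ^ (δ / 4) := Real.rpow_pos_of_pos hDpos _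
  have e8 : (D : ℝ) ^ (1 / 2 - δ / 2) ≤ C' * o := by
    rw [e7, show C' * (D : ℝ) ^ (δ / 4) * o = (C' * o) * (D : ℝ) ^ (δ / 4) by ring] at e6
    exact le_of_mul_le_mul_right e6 hq
  have e9 : (D : ℝ) ^ (1 / 2 - δ) * C' ≤ (D : ℝ) ^ (1 / 2 - δ / 2) := by
    calc (D : ℝ) ^ (1 / 2 - δ) * C' ≤ (D : ℝ) ^ (1 / 2 - δ) * (D : ℝ) ^ (δ / 2) :=
          mul_le_mul_of_nonneg_left hDC (Real.rpow_nonneg hDpos.le _)
      _ = (D : ℝ) ^ (1 / 2 - δ / 2) := by
          rw [← Real.rpow_add hDpos]; congr 1; ring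
  have e10 : (D : ℝ) ^ (1 / 2 - δ) * C' ≤ o * C' := by linarith
  exact le_of_mul_le_mul_right e10 hC'pos

variable {Y P : Fin n → Type*} [∀ j, TopologicalSpace (Y j)] [∀ j, MeasurableSpace (Y j)]
  {m : ∀ j, Measure (Y j)} [∀ j, MulAction GF (P j)] {pt : ∀ j, P j → Y j}
  {disc : ∀ j, P j → ℕ} {U N : ∀ j, P j → Subgroup G}

theorem orbit_inv {Q T : Type*} [MulAction GF Q] {φ : Q → T} (hφ : ∀ (σ : GF) x, φ (σ • x) = φ x)
    {x y : Q} (hy : y ∈ orbit GF x) : φ y = φ x := by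
  obtain ⟨σ, rfl⟩ := hy
  exact hφ σ x

/-- the limit for products -/
theorem tendsto_prod (hGF : GF.index ≠ 0)
    (h : ∀ j, GalFacts GF (disc j) (U j) (N j)) {x : ℕ → ∀ j, P j}
    (hs : ∀ j, SparseAlong GF (m j) (pt j) (disc j) fun i => x i j)
    (hx : ∀ j, ∀ z : P j, {i | x i j = z}.Finite)
    (hd : ∀ᶠ i in atTop, Function.Injective fun j => U j (x i j)) (g : ∀ j, Y j → ℝ)
    (hg : ∀ j, Continuous (g j) ∧ HasCompactSupport (g j)) :
    Tendsto (fun i => orbMean GF (x i) fun z => ∏ j, g j (pt j (z j))) atTop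
      (𝓝 (∏ j, ∫ y, g j y ∂(m j))) := by
  rw [Metric.tendsto_atTop]
  intro ε hε
  -- the modulus of continuity of the product
  obtain ⟨η, hη, hηε⟩ : ∃ η > 0, ∀ a : Fin n → ℝ, (∀ j, |a j - ∫ y, g j y ∂(m j)| ≤ η) →
      |∏ j, a j - ∏ j, ∫ y, g j y ∂(m j)| ≤ ε / 2 := by
    have hcont : Continuous fun a : Fin n → ℝ => ∏ j, a j :=
      continuous_finsetProd _ fun j _ => continuous_apply j
    have h1 := Metric.tendsto_nhds_nhds.mp (hcont.tendsto fun j => ∫ y, g j y ∂(m j)) (ε / 2)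
      (by linarith)
    obtain ⟨η, hη, h2⟩ := h1
    refine ⟨η / 2, by linarith, fun a ha => ?_⟩
    have h3 : dist a (fun j => ∫ y, g j y ∂(m j)) < η := by
      refine lt_of_le_of_lt ((dist_pi_le_iff (by linarith : (0:ℝ) ≤ η / 2)).mpr fun j => ?_)
        (by linarith : η / 2 < η)
      rw [Real.dist_eq]
      exact ha j
    have h4 := h2 h3
    rw [Real.dist_eq] at h4
    exact h4.le
  -- the constants
  have hc := fun j => (h j).level
  choose c hc using hc
  have key : ∀ j : Fin n, ∀ᶠ i in atTop, ∀ y ∈ orbit GF (x i j),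
      |orbMean (only GF (x i) j) y (fun z => g j (pt j z)) - ∫ y, g j y ∂(m j)| ≤ η := by
    intro j
    have hn : 1 ≤ n := (Nat.zero_le _).trans_lt j.2
    have hnr : (0 : ℝ) < n := by exact_mod_cast hn
    obtain ⟨δ, hδ, hsp⟩ := hs j
    have hsp' := hsp (g j) (hg j).1 (hg j).2 η hη
    obtain ⟨C1, hC1, hsie⟩ := (h j).siegel (δ / 4) (by linarith)
    obtain ⟨C2, hC2, hgen⟩ := (h j).genus (δ / (4 * n)) (by positivity)
    have hE : 1 ≤ GF.index * ∏ k, GF.index * max 1 (c k) := by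
      have h1 : 1 ≤ GF.index := Nat.one_le_iff_ne_zero.mpr hGF
      refine Nat.mul_pos h1 (Finset.prod_pos fun k _ => Nat.mul_pos h1 ?_)
      exact lt_of_lt_of_le one_pos (le_max_left _ _)
    obtain ⟨D2, hD2⟩ := rpow_estimate hn hδ hC1 hC2 hE
    filter_upwards [hd, (tendsto_disc (h j) (hx j)).eventually_ge_atTop D2, hsp'] with i hi hdisc hi'
    intro y hy
    have eU : U j y = U j (x i j) := orbit_inv (h j).U_smul hy
    have eN : N j y = N j (x i j) := orbit_inv (h j).N_smul hy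
    refine hi' y hy _ ?_
    refine hD2 _ hdisc _ _ _ (hsie (x i j)) (hgen (x i j)) ?_
    refine orbit_large hGF (U := fun k => U k (x i k)) (N := fun k => N k (x i k))
      (fun k => (h k).dihedral _) hi (c := fun k => max 1 (c k)) (fun k => le_max_left _ _)
      (fun k => ⟨(hc k (x i k)).1, (hc k (x i k)).2.trans (le_max_right _ _)⟩) j
      (((h j).finite (x i j)).subset (orbit_sub_orbit _ hy)) ?_
    intro σ hσ hσy
    have := (h j).moduli y σ (by rw [eU]; exact hσ) hσy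
    rwa [eN] at this
  obtain ⟨N0, hN0⟩ := eventually_atTop.mp (eventually_all.mpr key)
  refine ⟨N0, fun i hi => ?_⟩
  rw [Real.dist_eq]
  refine lt_of_le_of_lt (mean_product (Γ := GF) (x := x i) (fun j => (h j).finite _)
    (fun j z => g j (pt j z)) (fun j => ∫ y, g j y ∂(m j)) hηε fun j y hy => hN0 i hi j y hy)
    (by linarith)

theorem span_good [∀ j, SecondCountableTopology (Y j)] [∀ j, BorelSpace (Y j)]
    [∀ j, IsProbabilityMeasure (m j)] (hGF : GF.index ≠ 0)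
    (h : ∀ j, GalFacts GF (disc j) (U j) (N j)) {x : ℕ → ∀ j, P j}
    (hs : ∀ j, SparseAlong GF (m j) (pt j) (disc j) fun i => x i j)
    (hx : ∀ j, ∀ z : P j, {i | x i j = z}.Finite)
    (hd : ∀ᶠ i in atTop, Function.Injective fun j => U j (x i j)) {F : (∀ j, Y j) → ℝ}
    (hF : F ∈ Submodule.span ℝ (CProds Y)) :
    Integrable F (Measure.pi m) ∧
      Tendsto (fun i => orbMean GF (x i) fun z => F fun j => pt j (z j)) atTop
        (𝓝 (∫ y, F y ∂(Measure.pi m))) := by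
  have hfin : ∀ i, (orbit GF (x i)).Finite := fun i => orbit_finite fun j => (h j).finite _
  induction hF using Submodule.span_induction with
  | mem F hF =>
    obtain ⟨g, hg, rfl⟩ := hF
    refine ⟨Integrable.fintype_prod_dep fun j => (hg j).1.integrable_of_hasCompactSupport (hg j).2,
      ?_⟩
    rw [integral_fintype_prod_eq_prod]
    exact tendsto_prod hGF h hs hx hd g hg
  | zero =>
    refine ⟨integrable_zero _ _ _, ?_⟩
    simp only [Pi.zero_apply, integral_zero]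
    have : ∀ i, orbMean GF (x i) (fun _ => (0 : ℝ)) = 0 := by
      intro i
      unfold orbMean
      simp
    simp only [this]
    exact tendsto_const_nhds
  | add F F' _ _ hF hF' =>
    refine ⟨hF.1.add hF'.1, ?_⟩
    have e : ∫ y, (F + F') y ∂(Measure.pi m) = ∫ y, F y ∂(Measure.pi m) + ∫ y, F' y ∂(Measure.pi m) :=
      integral_add hF.1 hF'.1
    rw [e]
    refine Tendsto.congr (fun i => ?_) (hF.2.add hF'.2)
    exact (orbMean_add (hfin i) _ _).symm
  | smul r F _ hF =>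
    refine ⟨hF.1.smul r, ?_⟩
    have e : ∫ y, (r • F) y ∂(Measure.pi m) = r * ∫ y, F y ∂(Measure.pi m) := by
      simp only [Pi.smul_apply, smul_eq_mul]
      rw [integral_const_mul]
    rw [e]
    refine Tendsto.congr (fun i => ?_) (hF.2.const_mul r)
    exact (orbMean_smul (hfin i) r _).symm

theorem equidistribution [∀ j, T2Space (Y j)] [∀ j, LocallyCompactSpace (Y j)]
    [∀ j, SecondCountableTopology (Y j)] [∀ j, BorelSpace (Y j)]
    [∀ j, IsProbabilityMeasure (m j)] (hGF : GF.index ≠ 0)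
    (h : ∀ j, GalFacts GF (disc j) (U j) (N j)) {x : ℕ → ∀ j, P j}
    (hs : ∀ j, SparseAlong GF (m j) (pt j) (disc j) fun i => x i j)
    (hx : ∀ j, ∀ z : P j, {i | x i j = z}.Finite)
    (hd : ∀ᶠ i in atTop, Function.Injective fun j => U j (x i j)) {f : (∀ j, Y j) → ℝ}
    (hf : Continuous f) (hc : HasCompactSupport f) :
    Tendsto (fun i => orbMean GF (x i) fun z => f fun j => pt j (z j)) atTop
      (𝓝 (∫ y, f y ∂(Measure.pi m))) := by
  have hfin : ∀ i, (orbit GF (x i)).Finite := fun i => orbit_finite fun j => (h j).finite _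
  have hfi : Integrable f (Measure.pi m) := hf.integrable_of_hasCompactSupport hc
  rw [Metric.tendsto_atTop]
  intro ε hε
  obtain ⟨F, hF, hFf⟩ := exists_near hf hc (by linarith : 0 < ε / 4)
  obtain ⟨hFi, hFt⟩ := span_good hGF h hs hx hd hF
  obtain ⟨N0, hN0⟩ := Metric.tendsto_atTop.mp hFt (ε / 4) (by linarith)
  refine ⟨N0, fun i hi => ?_⟩
  have h1 := hN0 i hi
  rw [Real.dist_eq] at h1 ⊢
  have h2 : |orbMean GF (x i) (fun z => f fun j => pt j (z j)) -
      orbMean GF (x i) (fun z => F fun j => pt j (z j))| ≤ ε / 4 :=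
    orbMean_close (hfin i) fun z => hFf _
  have h3 : |∫ y, f y ∂(Measure.pi m) - ∫ y, F y ∂(Measure.pi m)| ≤ ε / 4 := by
    rw [← integral_sub hfi hFi]
    have := norm_integral_le_of_norm_le_const (μ := Measure.pi m) (f := fun y => f y - F y)
      (C := ε / 4) (Eventually.of_forall fun y => by rw [Real.norm_eq_abs]; exact hFf y)
    simpa using this
  have h4 := abs_lt.mp h1
  have h5 := abs_le.mp h2
  have h6 := abs_le.mp h3
  rw [abs_lt]
  constructor <;> linarith [h4.1, h4.2, h5.1, h5.2, h6.1, h6.2]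

end Pool.Agent.Helper183_CM
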